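import Pool.Agent.Results.MP_e841a3_pr.FisherRateFails

/-! Sharp bounds for the relative Fisher information of symmetric lattice mixtures of Gaussians with
small variance. -/

set_option autoImplicit false
open MeasureTheory ProbabilityTheory Filter Topology Set
open scoped ENNReal NNReal

namespace Pool.Agent.Y203.CLT

open Pool.Agent.H992R2 Pool.Agent.H992R2.Mix Pool.Agent.Results.MP_e841a3_pr.FisherRateFails

/-- Upper bound for `n = 1`, with the sharp leading constant. -/
theorem relFisher_upper' {a : ℝ} (ha0 : 0 ≤ a) (ha : a ≤ 1) {v : ℝ≥0} (hv : v ≠ 0)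
    (hv1 : (v : ℝ) ≤ 1) {δ : ℝ} (hδ : 0 < δ) :
    relFisher (mixM a v 1) ≤ ENNReal.ofReal ((1 + 1 / δ) + (1 + δ) / v) := by
  have hv' : (0 : ℝ) < v := by positivity
  rw [relFisher_mix a hv 1]
  set g : (Fin 1 → Bool) → ℝ → ℝ := fun b x => -((x - cn a 1 b) / v) + x with hg
  have hpt : ∀ x, mixD a v 1 x * (mixD' a v 1 x / mixD a v 1 x + x) ^ 2 ≤
      (2 ^ 1)⁻¹ * ∑ b : Fin 1 → Bool, gaussianPDFReal (cn a 1 b) v x * (g b x) ^ 2 := by
    intro x
    have hpos := mixD_pos a hv 1 x
    set F := mixD a v 1 x with hF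
    have h1 : mixD' a v 1 x + x * F = (2 ^ 1)⁻¹ *
        ∑ b : Fin 1 → Bool, gaussianPDFReal (cn a 1 b) v x * g b x := by
      rw [hF, mixD', mixD, mul_left_comm, ← mul_add, Finset.mul_sum, ← Finset.sum_add_distrib]
      congr 1
      refine Finset.sum_congr rfl fun b _ => ?_
      simp only [hg]; ring
    have h2 : (∑ b : Fin 1 → Bool, gaussianPDFReal (cn a 1 b) v x * g b x) ^ 2 ≤
        (∑ b : Fin 1 → Bool, gaussianPDFReal (cn a 1 b) v x) *
        ∑ b : Fin 1 → Bool, gaussianPDFReal (cn a 1 b) v x * (g b x) ^ 2 := by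
      have h3 := Finset.sum_mul_sq_le_sq_mul_sq (Finset.univ : Finset (Fin 1 → Bool))
        (fun b => Real.sqrt (gaussianPDFReal (cn a 1 b) v x))
        (fun b => Real.sqrt (gaussianPDFReal (cn a 1 b) v x) * g b x)
      have h4 : ∀ b : Fin 1 → Bool, Real.sqrt (gaussianPDFReal (cn a 1 b) v x) ^ 2 =
          gaussianPDFReal (cn a 1 b) v x := fun b => Real.sq_sqrt (gaussianPDFReal_nonneg _ _ _)
      simp only [mul_pow, h4] at h3
      have h5 : ∀ b : Fin 1 → Bool, Real.sqrt (gaussianPDFReal (cn a 1 b) v x) *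
          (Real.sqrt (gaussianPDFReal (cn a 1 b) v x) * g b x) =
          gaussianPDFReal (cn a 1 b) v x * g b x := by
        intro b
        rw [← mul_assoc, ← sq, h4]
      simp only [h5] at h3
      exact h3
    have h6 : F * (mixD' a v 1 x / F + x) ^ 2 = (mixD' a v 1 x + x * F) ^ 2 / F := by
      field_simp
    rw [h6, h1, mul_pow, div_le_iff₀ hpos]
    calc ((2 ^ 1)⁻¹ : ℝ) ^ 2 * (∑ b : Fin 1 → Bool, gaussianPDFReal (cn a 1 b) v x * g b x) ^ 2
        ≤ ((2 ^ 1)⁻¹ : ℝ) ^ 2 * ((∑ b : Fin 1 → Bool, gaussianPDFReal (cn a 1 b) v x) *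
        ∑ b : Fin 1 → Bool, gaussianPDFReal (cn a 1 b) v x * (g b x) ^ 2) := by gcongr
      _ = _ := by rw [hF, mixD]; ring
  have hcn : ∀ b : Fin 1 → Bool, (cn a 1 b) ^ 2 ≤ 1 := by
    intro b
    simp only [cn, Fin.sum_univ_one, Nat.cast_one, Real.sqrt_one, div_one]
    rw [mul_pow, sg_sq, mul_one]
    nlinarith
  calc ∫⁻ x, ENNReal.ofReal (mixD a v 1 x * (mixD' a v 1 x / mixD a v 1 x + x) ^ 2)
      ≤ ∫⁻ x, ∑ b : Fin 1 → Bool, ENNReal.ofReal ((2 ^ 1)⁻¹) * (gaussianPDF (cn a 1 b) v x *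
          ENNReal.ofReal ((1 + 1 / δ) + (1 + δ) / (v : ℝ) ^ 2 * (x - cn a 1 b) ^ 2)) := by
        refine lintegral_mono fun x => ?_
        refine (ENNReal.ofReal_le_ofReal (hpt x)).trans ?_
        rw [Finset.mul_sum, ENNReal.ofReal_sum_of_nonneg (fun b _ =>
          mul_nonneg (by positivity) (mul_nonneg (gaussianPDFReal_nonneg _ _ _) (sq_nonneg _)))]
        refine Finset.sum_le_sum fun b _ => ?_
        rw [gaussianPDF, ← ENNReal.ofReal_mul (gaussianPDFReal_nonneg _ _ _),
          ← ENNReal.ofReal_mul (by positivity)]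
        apply ENNReal.ofReal_le_ofReal
        have hp := gaussianPDFReal_nonneg (cn a 1 b) v x
        gcongr
        simp only [hg]
        set c := cn a 1 b
        have h7 : -((x - c) / v) + x = c + (x - c) * (1 - 1 / v) := by field_simp; ring
        rw [h7]
        have h8 : (1 - 1 / (v : ℝ)) ^ 2 ≤ 1 / (v : ℝ) ^ 2 := by
          have h9 : 1 ≤ 1 / (v : ℝ) := by rw [le_div_iff₀ hv']; linarith
          have h10 : 1 / (v : ℝ) ^ 2 = (1 / (v : ℝ)) ^ 2 := by rw [div_pow, one_pow]
          rw [h10]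
          nlinarith
        have h11 := hcn b
        set y := (x - c) * (1 - 1 / (v : ℝ)) with hy
        have hk : δ * (1 / δ) = 1 := by field_simp
        have hk0 : 0 < 1 / δ := by positivity
        have h12 : (c + y) ^ 2 ≤ (1 + 1 / δ) * c ^ 2 + (1 + δ) * y ^ 2 := by
          have e : (1 + 1 / δ) * c ^ 2 + (1 + δ) * y ^ 2 - (c + y) ^ 2 =
              1 / δ * (c - δ * y) ^ 2 := by
            linear_combination (2 * c * y - δ * y ^ 2) * hk
          have := mul_nonneg hk0.le (sq_nonneg (c - δ * y))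
          linarith
        have h13 : y ^ 2 ≤ (x - c) ^ 2 * (1 / (v : ℝ) ^ 2) := by
          rw [hy, mul_pow]
          gcongr
        have h14 : (1 + δ) / (v : ℝ) ^ 2 * (x - c) ^ 2 =
            (1 + δ) * ((x - c) ^ 2 * (1 / (v : ℝ) ^ 2)) := by ring
        rw [h14]
        have h15 : (1 + 1 / δ) * c ^ 2 ≤ (1 + 1 / δ) * 1 := by gcongr
        have h16 : (1 + δ) * y ^ 2 ≤ (1 + δ) * ((x - c) ^ 2 * (1 / (v : ℝ) ^ 2)) := by gcongr
        linarith
    _ = ∑ b : Fin 1 → Bool, ENNReal.ofReal ((2 ^ 1)⁻¹) *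
          ∫⁻ x, ENNReal.ofReal ((1 + 1 / δ) + (1 + δ) / (v : ℝ) ^ 2 * (x - cn a 1 b) ^ 2)
            ∂(gaussianReal (cn a 1 b) v) := by
        have hm : ∀ b : Fin 1 → Bool, Measurable fun x : ℝ =>
          ENNReal.ofReal ((1 + 1 / δ) + (1 + δ) / (v : ℝ) ^ 2 * (x - cn a 1 b) ^ 2) :=
            fun b => by fun_prop
        have hm2 : ∀ b : Fin 1 → Bool, Measurable fun x : ℝ => gaussianPDF (cn a 1 b) v x *
          ENNReal.ofReal ((1 + 1 / δ) + (1 + δ) / (v : ℝ) ^ 2 * (x - cn a 1 b) ^ 2) := fun b =>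
            (measurable_gaussianPDF _ _).mul (hm b)
        rw [lintegral_finsetSum _ fun b _ => (hm2 b).const_mul _]
        refine Finset.sum_congr rfl fun b _ => ?_
        rw [lintegral_const_mul _ (hm2 b),
          gaussianReal_of_var_ne_zero _ hv,
          lintegral_withDensity_eq_lintegral_mul _ (measurable_gaussianPDF _ _) (hm b)]
        rfl
    _ ≤ ∑ b : Fin 1 → Bool, ENNReal.ofReal ((2 ^ 1)⁻¹) *
          ENNReal.ofReal ((1 + 1 / δ) + (1 + δ) / v) := by
        gcongr with b _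
        have h1 : ∀ x : ℝ, ENNReal.ofReal ((1 + 1 / δ) + (1 + δ) / (v : ℝ) ^ 2 *
            (x - cn a 1 b) ^ 2) =
            ENNReal.ofReal (1 + 1 / δ) + ENNReal.ofReal ((1 + δ) / (v : ℝ) ^ 2) *
              ENNReal.ofReal ((x - cn a 1 b) ^ 2) := by
          intro x
          rw [ENNReal.ofReal_add (by positivity) (by positivity), ENNReal.ofReal_mul (by positivity)]
        simp_rw [h1]
        rw [lintegral_add_left measurable_const, lintegral_const_mul _ (by fun_prop),
          lintegral_sq_shift]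
        simp only [lintegral_const, measure_univ, mul_one]
        rw [← ENNReal.ofReal_coe_nnreal, ← ENNReal.ofReal_mul (by positivity),
          ← ENNReal.ofReal_add (by positivity) (by positivity)]
        apply ENNReal.ofReal_le_ofReal
        have h2 : (1 + δ) / (v : ℝ) ^ 2 * v = (1 + δ) / v := by field_simp
        rw [h2]
    _ = ENNReal.ofReal ((1 + 1 / δ) + (1 + δ) / v) := by
        rw [Finset.sum_const, Finset.card_univ, Fintype.card_fun, Fintype.card_bool,
          Fintype.card_fin, nsmul_eq_mul, ← mul_assoc, ← ENNReal.ofReal_natCast,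
          ← ENNReal.ofReal_mul (by positivity)]
        norm_num

/-- Lower bound for the relative Fisher information of the mixture through `sin (θ x)`, with the
sharp leading constant. -/
theorem relFisher_lower' (a : ℝ) {v : ℝ≥0} (hv : v ≠ 0) {n : ℕ} (hn : 1 ≤ n) (θ l : ℝ) {δ : ℝ}
    (hδ : 0 < δ) (hδ1 : δ < 1) :
    ENNReal.ofReal ((1 - δ) * (2 * l * (-(θ * (Real.exp (-(v * θ ^ 2 / 2)) *
      Real.cos (θ * (a / Real.sqrt n)) ^ n))) - l ^ 2 * ((1 - Real.exp (-(v * (2 * θ) ^ 2 / 2)) *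
      Real.cos (2 * θ * (a / Real.sqrt n)) ^ n) / 2)) - (1 / δ - 1) * (a ^ 2 + v)) ≤
      relFisher (mixM a v n) := by
  have hprob := mixM_prob a v n
  rw [relFisher_mix a hv n]
  set f := mixD a v n with hf
  set f' := mixD' a v n with hf'
  have hfi : Integrable f := integrable_mixD a hv n
  have hfi' : Integrable f' := integrable_mixD' a hv n
  have hsinb : ∀ x : ℝ, ‖Real.sin (θ * x)‖ ≤ 1 := fun x => Real.abs_sin_le_one _
  have hcosb : ∀ x : ℝ, ‖θ * Real.cos (θ * x)‖ ≤ |θ| := by
    intro x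
    rw [norm_mul, Real.norm_eq_abs, Real.norm_eq_abs]
    have := Real.abs_cos_le_one (θ * x)
    nlinarith [abs_nonneg θ]
  have i1 : Integrable (fun x => f' x * Real.sin (θ * x)) :=
    hfi'.mul_bdd (c := 1) (by fun_prop) (Filter.Eventually.of_forall hsinb)
  have i2 : Integrable (fun x => f x * Real.sin (θ * x)) :=
    hfi.mul_bdd (c := 1) (by fun_prop) (Filter.Eventually.of_forall hsinb)
  have i3 : Integrable (fun x => f x * (θ * Real.cos (θ * x))) :=
    hfi.mul_bdd (c := |θ|) (by fun_prop) (Filter.Eventually.of_forall hcosb)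
  have hsin2 : ∀ x : ℝ, ‖Real.sin (θ * x) ^ 2‖ ≤ 1 := by
    intro x
    rw [Real.norm_eq_abs, abs_of_nonneg (sq_nonneg _)]
    exact Real.sin_sq_le_one _
  have i4 : Integrable (fun x => f x * Real.sin (θ * x) ^ 2) :=
    hfi.mul_bdd (c := 1) (by fun_prop) (Filter.Eventually.of_forall hsin2)
  have i5 : Integrable (fun x => f x * x ^ 2) :=
    (integrable_mix_iff a hv n (fun x => x ^ 2)).mp
      (integrable_mixM a v n fun b => shift_integrable _ v 2)
  -- integration by parts
  have e1 : ∫ x, f' x * Real.sin (θ * x) = -(θ * (Real.exp (-(v * θ ^ 2 / 2)) *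
      Real.cos (θ * (a / Real.sqrt n)) ^ n)) := by
    have h1 := integral_mul_deriv_eq_deriv_mul_of_integrable
      (u := fun x => Real.sin (θ * x)) (u' := fun x => θ * Real.cos (θ * x)) (v := f) (v' := f')
      (fun x _ => by
        have h2 : HasDerivAt (fun x : ℝ => θ * x) θ x := by
          simpa using (hasDerivAt_id x).const_mul θ
        have h3 := h2.sin
        rw [mul_comm] at h3
        exact h3)
      (fun x _ => hasDerivAt_mixD a hv n x)
      (by
        refine i1.congr (Filter.Eventually.of_forall fun x => ?_)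
        simp only [Pi.mul_apply]; ring)
      (by
        refine i3.congr (Filter.Eventually.of_forall fun x => ?_)
        simp only [Pi.mul_apply]; ring)
      (by
        refine i2.congr (Filter.Eventually.of_forall fun x => ?_)
        simp only [Pi.mul_apply]; ring)
    have h2 : ∫ x, f' x * Real.sin (θ * x) = ∫ x, Real.sin (θ * x) * f' x := by
      refine integral_congr_ae (Filter.Eventually.of_forall fun x => ?_)
      simp only; ring
    rw [h2, h1, ← integral_cos_mix a v n θ, integral_mix_eq a hv n, ← integral_const_mul]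
    congr 1
    refine integral_congr_ae (Filter.Eventually.of_forall fun x => ?_)
    simp only; ring
  have e2 : ∫ x, f x * Real.sin (θ * x) ^ 2 = (1 - Real.exp (-(v * (2 * θ) ^ 2 / 2)) *
      Real.cos (2 * θ * (a / Real.sqrt n)) ^ n) / 2 := by
    rw [← integral_mix_eq a hv n, ← integral_cos_mix a v n (2 * θ)]
    have h1 : ∀ x : ℝ, Real.sin (θ * x) ^ 2 = 1 / 2 - Real.cos (2 * θ * x) / 2 := by
      intro x
      rw [Real.sin_sq_eq_half_sub, mul_assoc]
    simp_rw [h1]
    rw [integral_sub (integrable_const _), integral_const, integral_div]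
    · simp; ring
    · refine Integrable.div_const ?_ _
      apply Integrable.of_bound (C := 1) (by fun_prop)
      exact Filter.Eventually.of_forall fun x => Real.abs_cos_le_one _
  have e3 : ∫ x, f x * x ^ 2 = a ^ 2 + v := by
    rw [← integral_mix_eq a hv n, mix_second a v hn]
  have i6 : Integrable (fun x => (1 - δ) * (2 * l * (f' x * Real.sin (θ * x)) -
      l ^ 2 * (f x * Real.sin (θ * x) ^ 2))) :=
    ((i1.const_mul _).sub (i4.const_mul _)).const_mul _
  have i7 : Integrable (fun x => (1 / δ - 1) * (f x * x ^ 2)) := i5.const_mul _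
  have e4 : ∫ x, ((1 - δ) * (2 * l * (f' x * Real.sin (θ * x)) -
      l ^ 2 * (f x * Real.sin (θ * x) ^ 2)) - (1 / δ - 1) * (f x * x ^ 2)) =
      (1 - δ) * (2 * l * (-(θ * (Real.exp (-(v * θ ^ 2 / 2)) *
      Real.cos (θ * (a / Real.sqrt n)) ^ n))) - l ^ 2 * ((1 - Real.exp (-(v * (2 * θ) ^ 2 / 2)) *
      Real.cos (2 * θ * (a / Real.sqrt n)) ^ n) / 2)) - (1 / δ - 1) * (a ^ 2 + v) := by
    rw [integral_sub i6 i7, integral_const_mul, integral_const_mul,
      integral_sub (i1.const_mul _) (i4.const_mul _), integral_const_mul,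
      integral_const_mul, e1, e2, e3]
  rw [← e4]
  refine (ofReal_integral_le (i6.sub i7)).trans (lintegral_mono fun x => ?_)
  apply ENNReal.ofReal_le_ofReal
  have hpos : 0 < f x := mixD_pos a hv n x
  set S := Real.sin (θ * x)
  have h1 : f x * (f' x / f x + x) ^ 2 = (f' x + x * f x) ^ 2 / f x := by field_simp
  rw [h1, le_div_iff₀ hpos]
  change ((1 - δ) * (2 * l * (f' x * S) - l ^ 2 * (f x * S ^ 2)) -
    (1 / δ - 1) * (f x * x ^ 2)) * f x ≤ _
  have hk : δ * (1 / δ) = 1 := by field_simp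
  have hk0 : 0 < 1 / δ := by positivity
  have e : (f' x + x * f x) ^ 2 - ((1 - δ) * (2 * l * (f' x * S) - l ^ 2 * (f x * S ^ 2)) -
      (1 / δ - 1) * (f x * x ^ 2)) * f x =
      (1 - δ) * (f' x - l * S * f x) ^ 2 + 1 / δ * (δ * f' x + x * f x) ^ 2 := by
    linear_combination (-(δ * f' x ^ 2) - 2 * f' x * x * f x) * hk
  have h2 := mul_nonneg (by linarith : (0 : ℝ) ≤ 1 - δ) (sq_nonneg (f' x - l * S * f x))
  have h3 := mul_nonneg hk0.le (sq_nonneg (δ * f' x + x * f x))
  linarith

end Pool.Agent.Y203.CLT
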